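import Pool.Agent.R804.Ext.Final

/-!
# A link exterior whose skein module is not finitely generated over the meridians

The link is the connected sum of two Hopf links: two parallel unknotted circles `L_1`, `L_2` and
their common axis `L_3`. Its exterior is the thickened annulus without the two core curves `L_1`,
`L_2`, so framed links in it are given by diagrams in the annulus with two fixed strands.
-/

set_option autoImplicit false

namespace Pool.Agent.Results.MP_382f0d_gt.ConnectedSumHopf

open Pool.Agent.R804.Ext

/-- The Kauffman bracket skein module over `ℚ(A)` of the exterior of the connected sum of two Hopf
links is not finitely generated over `ℚ(A)[m_1, m_2, m_3]`, where `m_i` are the meridians. -/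
theorem result : ¬ Module.Finite meridianAlgebra SkeinModule := not_finite

end Pool.Agent.Results.MP_382f0d_gt.ConnectedSumHopf
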